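import Pool.Agent.H.MP_ddf3f5_co.B

/-! Generating functions of sign-pattern classes of positive roots form a finite linear system. -/

set_option autoImplicit false

namespace Pool.Agent.H.Cox

open Finset Classical

variable {B : Type} [Fintype B] {M : CoxeterMatrix B} {W : Type} [Group W] {cs : CoxeterSystem M W}

lemma finite_len (n : ℕ) : {w : W | cs.length w = n}.Finite := by
  refine ((List.finite_length_eq B n).image cs.wordProd).subset fun w hw => ?_
  obtain ⟨ω, h1, h2⟩ := cs.exists_isReduced w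
  refine ⟨ω, ?_, h2.symm⟩
  have := h1.eq
  rw [← h2] at this
  exact this.symm.trans hw

/-- the reflection in a root -/
noncomputable def rf (cs : CoxeterSystem M W) (β : B → ℝ) : W :=
  if h : Root cs β then h.exists_refl.choose else 1

lemma rf_spec {β : B → ℝ} (h : Root cs β) : cs.IsReflection (rf cs β) ∧ Refl cs (rf cs β) β := by
  rw [rf, dif_pos h]; exact h.exists_refl.choose_spec

lemma rf_bij (n : ℕ) : Set.BijOn (rf cs) {β | PR cs β ∧ L cs β = n}
    {t | cs.IsReflection t ∧ cs.length t = n} := by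
  refine ⟨fun β hβ => ⟨(rf_spec hβ.1.1).1, ?_⟩, fun β hβ γ hγ h => ?_, fun t ht => ?_⟩
  · rw [← (rf_spec hβ.1.1).2.L_eq]; exact hβ.2
  · exact Refl.root_unique hβ.1 hγ.1 (rf_spec hβ.1.1).2 (h ▸ (rf_spec hγ.1.1).2)
  · obtain ⟨β, h1, h2⟩ := exists_pr ht.1
    exact ⟨β, ⟨h1, h2.L_eq.trans ht.2⟩, (rf_spec h1.1).2.unique h2⟩

lemma finite_L (n : ℕ) : {β | PR cs β ∧ L cs β = n}.Finite :=
  Set.Finite.of_finite_image
    (((finite_len (cs := cs) n).subset fun _ h => h.2).subset (rf_bij n).mapsTo.image_subset)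
    (rf_bij n).injOn

variable (cs) in
/-- generating function of a set of roots -/
noncomputable def G (A : Set (B → ℝ)) : PowerSeries ℚ :=
  PowerSeries.mk fun n => (({β | β ∈ A ∧ L cs β = n}.ncard : ℕ) : ℚ)

lemma G_split {A : Set (B → ℝ)} (hA : ∀ β ∈ A, PR cs β) (p : (B → ℝ) → Prop) :
    G cs A = G cs {β | β ∈ A ∧ p β} + G cs {β | β ∈ A ∧ ¬ p β} := by
  ext n
  simp only [G, map_add, PowerSeries.coeff_mk]
  have hf : ∀ q : (B → ℝ) → Prop, {β | β ∈ {β | β ∈ A ∧ q β} ∧ L cs β = n}.Finite := fun q =>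
    (finite_L n).subset fun β h => ⟨hA β h.1.1, h.2⟩
  rw [← Nat.cast_add, ← Set.ncard_union_eq _ (hf p) (hf fun β => ¬ p β)]
  · congr 2
    ext β
    simp only [Set.mem_setOf_eq, Set.mem_union]
    tauto
  · rw [Set.disjoint_left]
    rintro β ⟨⟨-, h1⟩, -⟩ ⟨⟨-, h2⟩, -⟩
    exact h2 h1

lemma G_finite {A : Set (B → ℝ)} (hA : A.Finite) : ∃ p : Polynomial ℚ, G cs A = p := by
  obtain ⟨N, hN⟩ := (hA.image (L cs)).bddAbove
  refine ⟨PowerSeries.trunc (N + 1) (G cs A), ?_⟩
  ext n
  rw [Polynomial.coeff_coe, PowerSeries.coeff_trunc]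
  split_ifs with h
  · rfl
  · have : {β | β ∈ A ∧ L cs β = n} = ∅ := by
      rw [Set.eq_empty_iff_forall_notMem]
      rintro β ⟨h1, h2⟩
      have := hN ⟨β, h1, h2⟩
      omega
    simp [G, this]

lemma G_shift {A A' : Set (B → ℝ)} {f : (B → ℝ) → (B → ℝ)} {k : ℕ} (hf : Set.BijOn f A A')
    (hk : ∀ β ∈ A, L cs (f β) + k = L cs β) : G cs A = PowerSeries.X ^ k * G cs A' := by
  ext n
  rw [PowerSeries.coeff_X_pow_mul']
  simp only [G, PowerSeries.coeff_mk]
  split_ifs with h
  · congr 1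
    refine Set.BijOn.ncard_eq (f := f) ⟨fun β hβ => ⟨hf.mapsTo hβ.1, ?_⟩,
      hf.injOn.mono fun β hβ => hβ.1, fun δ hδ => ?_⟩
    · have := hk β hβ.1; have := hβ.2; omega
    · obtain ⟨β, h1, rfl⟩ := hf.surjOn hδ.1
      refine ⟨β, ⟨h1, ?_⟩, rfl⟩
      have := hk β h1; have := hδ.2; omega
  · have : {β | β ∈ A ∧ L cs β = n} = ∅ := by
      rw [Set.eq_empty_iff_forall_notMem]
      rintro β ⟨h1, h2⟩
      have := hk β h1
      omega
    simp [this]

lemma G_PP_split (J : Finset B) (π : B → SignType) {i : B} (hi : i ∉ J) :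
    G cs (PP cs J π) = G cs (PP cs (insert i J) (Function.update π i 1)) +
      G cs (PP cs (insert i J) (Function.update π i 0)) +
      G cs (PP cs (insert i J) (Function.update π i (-1))) := by
  have key : ∀ (ε : SignType) β, β ∈ PP cs (insert i J) (Function.update π i ε) ↔
      β ∈ PP cs J π ∧ SignType.sign (b M i β) = ε := by
    intro ε β
    simp only [PP, Set.mem_setOf_eq, Finset.forall_mem_insert, Function.update_self]
    have : (∀ j ∈ J, SignType.sign (b M j β) = Function.update π i ε j) ↔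
        ∀ j ∈ J, SignType.sign (b M j β) = π j := by
      refine forall₂_congr fun j hj => ?_
      rw [Function.update_of_ne (by rintro rfl; exact hi hj)]
    rw [this]; tauto
  rw [G_split (A := PP cs J π) (fun β h => h.1) (fun β => SignType.sign (b M i β) = 1),
    G_split (A := {β | β ∈ PP cs J π ∧ ¬ SignType.sign (b M i β) = 1}) (fun β h => h.1.1)
      (fun β => SignType.sign (b M i β) = 0), add_assoc]
  congr 2
  · ext β; rw [key]; rfl
  · congr 1
    ext β; rw [key]
    simp only [Set.mem_setOf_eq]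
    constructor
    · exact fun h => ⟨h.1.1, h.2⟩
    · exact fun h => ⟨⟨h.1, by rw [h.2]; decide⟩, h.2⟩
  · congr 1
    ext β; rw [key]
    simp only [Set.mem_setOf_eq]
    constructor
    · rintro ⟨⟨h1, h2⟩, h3⟩
      refine ⟨h1, ?_⟩
      revert h2 h3
      generalize SignType.sign (b M i β) = x
      revert x; decide
    · exact fun h => ⟨⟨h.1, by rw [h.2]; decide⟩, by rw [h.2]; decide⟩

variable (cs) in
/-- the module spanned by all pattern series -/
noncomputable def M1 : Submodule (Polynomial ℚ) (PowerSeries ℚ) :=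
  Submodule.span _ (Set.range fun x : Finset B × (B → SignType) => G cs (PP cs x.1 x.2))

/-- the polynomials -/
noncomputable def M0 : Submodule (Polynomial ℚ) (PowerSeries ℚ) := Submodule.span _ {1}

variable (cs) in
/-- polynomials plus `X` times pattern series -/
noncomputable def K : Submodule (Polynomial ℚ) (PowerSeries ℚ) :=
  M0 ⊔ (Ideal.span {(Polynomial.X : Polynomial ℚ)}) • M1 cs

lemma smul_eq (p : Polynomial ℚ) (f : PowerSeries ℚ) : p • f = (p : PowerSeries ℚ) * f := by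
  rw [Algebra.smul_def, PowerSeries.algebraMap_apply']; simp

lemma mem_M0 {f : PowerSeries ℚ} : f ∈ M0 ↔ ∃ p : Polynomial ℚ, f = p := by
  rw [M0, Submodule.mem_span_singleton]
  refine exists_congr fun p => ?_
  rw [smul_eq, mul_one, eq_comm]

lemma mem_M1 (J : Finset B) (π : B → SignType) : G cs (PP cs J π) ∈ M1 cs :=
  Submodule.subset_span ⟨(J, π), rfl⟩

lemma K_dom {J : Finset B} {π : B → SignType} (h0 : ∀ i ∈ J, 0 ≤ π i) (h1 : ∃ i ∈ J, π i = 1) :
    G cs (PP cs J π) ∈ K cs := by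
  rw [G_split (A := PP cs J π) (fun β h => h.1) (fun β => ∃ j, j ∉ J ∧ β j ≠ 0)]
  refine add_mem ?_ (Submodule.mem_sup_left (mem_M0.2 (G_finite ?_)))
  · by_cases h : ∃ β₀, β₀ ∈ PP cs J π ∧ ∃ j, j ∉ J ∧ β₀ j ≠ 0
    · obtain ⟨β₀, h2, h3⟩ := h
      obtain ⟨w, k, π', h4, h5⟩ := shift h0 h1 h2 h3
      rw [G_shift h4 (fun β hβ => h5 β hβ.1 hβ.2)]
      refine Submodule.mem_sup_right ?_
      have : PowerSeries.X ^ (k + 1) * G cs (PP cs J π') =
          ((Polynomial.X : Polynomial ℚ) ^ (k + 1)) • G cs (PP cs J π') := by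
        rw [smul_eq]; simp
      rw [this]
      refine Submodule.smul_mem_smul ?_ (mem_M1 J π')
      exact Ideal.pow_mem_of_mem _ (Ideal.mem_span_singleton_self _) _ (by omega)
    · refine Submodule.mem_sup_left (mem_M0.2 (G_finite ?_))
      convert Set.finite_empty
      rw [Set.eq_empty_iff_forall_notMem]
      exact fun β hβ => h ⟨β, hβ⟩
  · refine (finite_dominant (cs := cs) J).subset fun β hβ => ⟨hβ.1.1, fun j hj => ?_, fun i hi => ?_⟩
    · by_contra hc; exact hβ.2 ⟨j, hj, hc⟩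
    · rw [← sign_nonneg_iff, hβ.1.2 i hi]; exact h0 i hi

lemma K_plus (J : Finset B) (π : B → SignType) (h1 : ∃ i ∈ J, π i = 1) :
    G cs (PP cs J π) ∈ K cs := by
  induction hn : (J.filter fun i => π i = -1).card using Nat.strong_induction_on
    generalizing J π with
  | _ n ih =>
  by_cases h : ∀ i ∈ J, 0 ≤ π i
  · exact K_dom h h1
  push Not at h
  obtain ⟨i, hi, hi'⟩ := h
  have hi2 : π i = -1 := by
    revert hi'; generalize π i = x; revert x; decide
  obtain ⟨j, hj, hj'⟩ := h1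
  have hji : j ≠ i := by rintro rfl; rw [hi2] at hj'; revert hj'; decide
  have h2 := G_PP_split (cs := cs) (J.erase i) π (Finset.notMem_erase i J)
  rw [Finset.insert_erase hi, ← hi2, Function.update_eq_self] at h2
  have hmem : i ∈ J.filter fun i => π i = -1 := Finset.mem_filter.2 ⟨hi, hi2⟩
  have h3 : ∀ ε : SignType, ε ≠ -1 → G cs (PP cs J (Function.update π i ε)) ∈ K cs := by
    intro ε hε
    refine ih _ ?_ J _ ⟨j, hj, by rwa [Function.update_of_ne hji]⟩ rfl
    rw [← hn]
    refine Finset.card_lt_card ⟨fun x hx => ?_, fun hs => ?_⟩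
    · rw [Finset.mem_filter] at hx ⊢
      by_cases hxi : x = i
      · subst hxi; exact ⟨hi, hi2⟩
      · rwa [Function.update_of_ne hxi] at hx
    · have := (Finset.mem_filter.1 (hs hmem)).2
      rw [Function.update_self] at this
      exact hε this
  have h4 : G cs (PP cs (J.erase i) π) ∈ K cs := by
    refine ih _ ?_ _ _ ⟨j, Finset.mem_erase.2 ⟨hji, hj⟩, hj'⟩ rfl
    rw [← hn]
    refine Finset.card_lt_card ⟨Finset.filter_subset_filter _ (Finset.erase_subset _ _), fun hs => ?_⟩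
    exact Finset.notMem_erase i J (Finset.mem_filter.1 (hs hmem)).1
  have h5 : G cs (PP cs J π) = G cs (PP cs (J.erase i) π) -
      G cs (PP cs J (Function.update π i 1)) - G cs (PP cs J (Function.update π i 0)) := by
    rw [h2]; ring
  rw [h5]
  exact sub_mem (sub_mem h4 (h3 1 (by decide))) (h3 0 (by decide))

lemma K_all (J : Finset B) (π : B → SignType) : G cs (PP cs J π) ∈ K cs := by
  induction hn : Jᶜ.card using Nat.strong_induction_on generalizing J π with
  | _ n ih =>
  by_cases h1 : ∃ i ∈ J, π i = 1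
  · exact K_plus J π h1
  by_cases h2 : ∃ i, i ∉ J
  · obtain ⟨i, hi⟩ := h2
    have h3 : ∀ π', G cs (PP cs (insert i J) π') ∈ K cs := fun π' => by
      refine ih _ ?_ _ _ rfl
      rw [← hn, Finset.compl_insert]
      exact Finset.card_erase_lt_of_mem (Finset.mem_compl.2 hi)
    rw [G_PP_split J π hi]
    exact add_mem (add_mem (h3 _) (h3 _)) (h3 _)
  · push Not at h2
    refine Submodule.mem_sup_left (mem_M0.2 (G_finite ?_))
    convert Set.finite_empty
    rw [Set.eq_empty_iff_forall_notMem]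
    intro β hβ
    obtain ⟨i, -, hi⟩ := hβ.1.exists_desc
    exact h1 ⟨i, h2 i, by rw [← hβ.2 i (h2 i), sign_pos hi]⟩

theorem rational : ∃ P Q : Polynomial ℚ, Q ≠ 0 ∧
    (Q : PowerSeries ℚ) * G cs {β | PR cs β} = (P : PowerSeries ℚ) := by
  have hfg : (M1 cs).FG := Submodule.fg_span (Set.finite_range _)
  have hle : (M1 cs).map M0.mkQ ≤
      (Ideal.span {(Polynomial.X : Polynomial ℚ)}) • (M1 cs).map M0.mkQ := by
    have h1 : M1 cs ≤ K cs := Submodule.span_le.2 (by rintro _ ⟨x, rfl⟩; exact K_all x.1 x.2)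
    simpa [K] using Submodule.map_mono (f := M0.mkQ) h1
  obtain ⟨r, hr, h⟩ := Submodule.exists_sub_one_mem_and_smul_eq_zero_of_fg_of_le_smul _ _
    (hfg.map _) hle
  have h2 := h _ ⟨_, mem_M1 (cs := cs) ∅ (fun _ => 0), rfl⟩
  rw [← map_smul, Submodule.mkQ_apply, Submodule.Quotient.mk_eq_zero, mem_M0] at h2
  obtain ⟨p, hp⟩ := h2
  refine ⟨p, r, ?_, ?_⟩
  · rintro rfl
    rw [Ideal.mem_span_singleton, Polynomial.X_dvd_iff] at hr
    simp at hr
  · rw [← hp, smul_eq]
    congr 2
    ext β; simp [PP]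

theorem main (B : Type) [Finite B] (M : CoxeterMatrix B) (W : Type) [Group W]
    (cs : CoxeterSystem M W) : ∃ P Q : Polynomial ℚ, Q ≠ 0 ∧
      (Q : PowerSeries ℚ) * PowerSeries.mk (fun n : ℕ =>
        ((Nat.card {t : W // cs.IsReflection t ∧ cs.length t = n} : ℕ) : ℚ))
        = (P : PowerSeries ℚ) := by
  letI := Fintype.ofFinite B
  obtain ⟨P, Q, h1, h2⟩ := rational (cs := cs)
  refine ⟨P, Q, h1, ?_⟩
  rw [← h2, G]
  congr 2
  funext n
  congr 1
  exact ((rf_bij (cs := cs) n).ncard_eq).symm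

end Pool.Agent.H.Cox
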