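import Mathlib

/-! The geometric representation of a Coxeter system of finite rank and the sign of roots. -/

set_option autoImplicit false

namespace Pool.Agent.H.Cox

open Finset Classical

variable {B : Type} [Fintype B] (M : CoxeterMatrix B)

/-- Gram matrix of the simple roots -/
noncomputable def g (i j : B) : ℝ := - Real.cos (Real.pi / M i j)

omit [Fintype B] in
lemma g_symm (i j : B) : g M i j = g M j i := by simp only [g, M.symmetric i j]

omit [Fintype B] in
lemma g_self (i : B) : g M i i = 1 := by simp [g]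

/-- simple root -/
noncomputable def e (i : B) : B → ℝ := Pi.single i 1

/-- the bilinear form -/
noncomputable def bf (u v : B → ℝ) : ℝ := ∑ i, ∑ j, u i * g M i j * v j

/-- pairing with a simple root -/
noncomputable def b (i : B) (v : B → ℝ) : ℝ := ∑ j, g M i j * v j

lemma bf_eq (u v : B → ℝ) : bf M u v = ∑ i, u i * b M i v := by
  simp only [bf, b, Finset.mul_sum, mul_assoc]

lemma bf_symm (u v : B → ℝ) : bf M u v = bf M v u := by
  unfold bf
  rw [Finset.sum_comm]
  refine Finset.sum_congr rfl fun i _ => Finset.sum_congr rfl fun j _ => ?_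
  rw [g_symm M j i]; ring

lemma b_add (i : B) (u v : B → ℝ) : b M i (u + v) = b M i u + b M i v := by
  simp [b, mul_add, Finset.sum_add_distrib]

lemma b_sub (i : B) (u v : B → ℝ) : b M i (u - v) = b M i u - b M i v := by
  simp [b, mul_sub, Finset.sum_sub_distrib]

lemma b_smul (i : B) (c : ℝ) (v : B → ℝ) : b M i (c • v) = c * b M i v := by
  simp only [b, Pi.smul_apply, smul_eq_mul, Finset.mul_sum]
  exact Finset.sum_congr rfl fun j _ => by ring

lemma b_e (i j : B) : b M i (e j) = g M i j := by
  simp [b, e, Pi.single_apply]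

lemma bf_e (i : B) (v : B → ℝ) : bf M (e i) v = b M i v := by
  simp [bf_eq, e, Pi.single_apply]

lemma bf_sub (u u' v : B → ℝ) : bf M (u - u') v = bf M u v - bf M u' v := by
  simp [bf_eq, sub_mul, Finset.sum_sub_distrib]

lemma bf_smul (c : ℝ) (u v : B → ℝ) : bf M (c • u) v = c * bf M u v := by
  simp only [bf_eq, Pi.smul_apply, smul_eq_mul, Finset.mul_sum, mul_assoc]

lemma bf_sub' (u v v' : B → ℝ) : bf M u (v - v') = bf M u v - bf M u v' := by
  rw [bf_symm, bf_sub, bf_symm M v, bf_symm M v']

lemma bf_smul' (c : ℝ) (u v : B → ℝ) : bf M u (c • v) = c * bf M u v := by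
  rw [bf_symm, bf_smul, bf_symm]

/-- simple reflection -/
noncomputable def σ (i : B) : Module.End ℝ (B → ℝ) where
  toFun v := v - (2 * b M i v) • e i
  map_add' u v := by rw [b_add, mul_add, add_smul]; abel
  map_smul' c v := by
    rw [b_smul, RingHom.id_apply, smul_sub, smul_smul]; congr 2; ring

lemma σ_apply (i : B) (v : B → ℝ) : σ M i v = v - (2 * b M i v) • e i := rfl

lemma σ_e (i j : B) : σ M i (e j) = e j - (2 * g M i j) • e i := by rw [σ_apply, b_e]

lemma σ_self (i : B) : σ M i (e i) = - e i := by
  rw [σ_e, g_self, mul_one, two_smul]; abel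

lemma σ_σ (i : B) (v : B → ℝ) : σ M i (σ M i v) = v := by
  conv_lhs => rw [σ_apply M i v, map_sub, map_smul, σ_self, σ_apply]
  rw [smul_neg]; abel

lemma bf_σ (i : B) (u v : B → ℝ) : bf M (σ M i u) (σ M i v) = bf M u v := by
  simp only [σ_apply, bf_sub, bf_sub', bf_smul, bf_smul', bf_e, b_e, g_self]
  rw [bf_symm M u (e i), bf_e]; ring

/-- Chebyshev-type sequence -/
def U (c : ℝ) : ℕ → ℝ
  | 0 => 0
  | 1 => 1
  | (k + 2) => 2 * c * U c (k + 1) - U c k

lemma U_sin (θ : ℝ) : ∀ k : ℕ, U (Real.cos θ) k * Real.sin θ = Real.sin (k * θ)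
  | 0 => by simp [U]
  | 1 => by simp [U]
  | (k + 2) => by
    have h1 := U_sin θ k
    have h2 := U_sin θ (k + 1)
    have h3 : Real.sin (((k + 2 : ℕ) : ℝ) * θ) =
        2 * Real.cos θ * Real.sin (((k + 1 : ℕ) : ℝ) * θ) - Real.sin (k * θ) := by
      have a1 : ((k + 2 : ℕ) : ℝ) * θ = ((k + 1 : ℕ) : ℝ) * θ + θ := by push_cast; ring
      have a2 : (k : ℝ) * θ = ((k + 1 : ℕ) : ℝ) * θ - θ := by push_cast; ring
      rw [a1, a2, Real.sin_add, Real.sin_sub]; ring
    rw [h3, ← h1, ← h2, U]; ring

lemma U_one : ∀ k : ℕ, U 1 k = k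
  | 0 => by simp [U]
  | 1 => by simp [U]
  | (k + 2) => by rw [U, U_one k, U_one (k + 1)]; push_cast; ring

lemma sin_pos {m : ℕ} (hm : 2 ≤ m) : 0 < Real.sin (Real.pi / m) := by
  have h2 : (2 : ℝ) ≤ m := by exact_mod_cast hm
  apply Real.sin_pos_of_pos_of_lt_pi
  · have := Real.pi_pos; positivity
  · exact div_lt_self Real.pi_pos (by linarith)

lemma U_nonneg {m k : ℕ} (hm : m ≠ 1) (hk : m ≠ 0 → k ≤ m) : 0 ≤ U (Real.cos (Real.pi / m)) k := by
  rcases Nat.eq_zero_or_pos m with rfl | h0
  · simp [U_one]
  · have hm2 : 2 ≤ m := by omega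
    have h1 := U_sin (Real.pi / m) k
    have h2 := sin_pos hm2
    have hm' : (0 : ℝ) < m := by exact_mod_cast h0
    have hk' : (k : ℝ) ≤ m := by exact_mod_cast hk (by omega)
    have h3 : 0 ≤ Real.sin (k * (Real.pi / m)) := by
      apply Real.sin_nonneg_of_nonneg_of_le_pi
      · have := Real.pi_pos; positivity
      · rw [mul_div_assoc', div_le_iff₀ hm']
        have := Real.pi_pos; nlinarith
    rw [← h1] at h3
    exact nonneg_of_mul_nonneg_left h3 h2

lemma σ_left (i j : B) (x y : ℝ) :
    σ M i (x • e i + y • e j) = (2 * Real.cos (Real.pi / M i j) * y - x) • e i + y • e j := by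
  rw [map_add, map_smul, map_smul, σ_self, σ_e, g]
  module

lemma σ_right (i j : B) (x y : ℝ) :
    σ M j (x • e i + y • e j) = x • e i + (2 * Real.cos (Real.pi / M i j) * x - y) • e j := by
  rw [add_comm, σ_left, add_comm, M.symmetric j i]

lemma pow_e (i j : B) (k : ℕ) : ((σ M i * σ M j) ^ k) (e i) =
    U (Real.cos (Real.pi / M i j)) (2 * k + 1) • e i + U (Real.cos (Real.pi / M i j)) (2 * k) • e j := by
  induction k with
  | zero => simp [U]
  | succ k ih =>
    rw [pow_succ', Module.End.mul_apply, ih, Module.End.mul_apply, σ_right, σ_left]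
    have a1 : 2 * (k + 1) + 1 = (2 * k + 1) + 2 := by ring
    have a2 : 2 * (k + 1) = 2 * k + 2 := by ring
    rw [a1, a2, U, U]

lemma pow_e_self (i j : B) (h : 2 ≤ M i j) : ((σ M i * σ M j) ^ M i j) (e i) = e i := by
  rw [pow_e]
  have hs := sin_pos h
  have hm' : (M i j : ℝ) ≠ 0 := by
    have : M i j ≠ 0 := by omega
    exact_mod_cast this
  have h1 := U_sin (Real.pi / M i j) (2 * M i j)
  have h2 := U_sin (Real.pi / M i j) (2 * M i j + 1)
  have a1 : ((2 * M i j : ℕ) : ℝ) * (Real.pi / M i j) = 2 * Real.pi := by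
    push_cast; field_simp
  have a2 : ((2 * M i j + 1 : ℕ) : ℝ) * (Real.pi / M i j) = Real.pi / M i j + 2 * Real.pi := by
    push_cast; field_simp; ring
  rw [a1, Real.sin_two_pi] at h1
  rw [a2, Real.sin_add_two_pi] at h2
  have b1 : U (Real.cos (Real.pi / M i j)) (2 * M i j) = 0 := by
    rcases mul_eq_zero.1 h1 with h | h
    · exact h
    · exact absurd h hs.ne'
  have b2 : U (Real.cos (Real.pi / M i j)) (2 * M i j + 1) = 1 := by
    have : (U (Real.cos (Real.pi / M i j)) (2 * M i j + 1) - 1) * Real.sin (Real.pi / M i j) = 0 := by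
      rw [sub_mul, h2]; ring
    rcases mul_eq_zero.1 this with h | h
    · linarith
    · exact absurd h hs.ne'
  rw [b1, b2]; simp

lemma pow_inv (i j : B) (k : ℕ) (v : B → ℝ) :
    ((σ M i * σ M j) ^ k) (((σ M j * σ M i) ^ k) v) = v := by
  induction k generalizing v with
  | zero => simp
  | succ k ih =>
    rw [pow_succ, pow_succ', Module.End.mul_apply, Module.End.mul_apply, Module.End.mul_apply,
      Module.End.mul_apply, σ_σ, σ_σ, ih]

lemma liftable : M.IsLiftable (σ M) := by
  intro i j
  by_cases hij : i = j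
  · subst hij
    rw [M.diagonal, pow_one]
    exact LinearMap.ext fun v => σ_σ M i v
  rcases Nat.eq_zero_or_pos (M i j) with h0 | h0
  · rw [h0, pow_zero]
  have h2 : 2 ≤ M i j := by have := M.off_diagonal i j hij; omega
  have hi := pow_e_self M i j h2
  have hj : ((σ M i * σ M j) ^ M i j) (e j) = e j := by
    have := pow_e_self M j i (by rwa [M.symmetric j i])
    rw [M.symmetric j i] at this
    conv_lhs => rw [← this]
    exact pow_inv M i j _ _
  set c := g M i j with hc
  have hc1 : 1 - c ^ 2 ≠ 0 := by
    have hs := sin_pos h2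
    have : 1 - c ^ 2 = Real.sin (Real.pi / M i j) ^ 2 := by
      rw [hc, g, neg_sq, Real.sin_sq]
    rw [this]; positivity
  apply LinearMap.ext; intro v
  set x := (b M i v - c * b M j v) / (1 - c ^ 2)
  set y := (b M j v - c * b M i v) / (1 - c ^ 2)
  set v' := v - x • e i - y • e j with hv'
  have h3 : b M i v' = 0 := by
    rw [hv', b_sub, b_sub, b_smul, b_smul, b_e, b_e, g_self, ← hc]
    simp only [x, y]; field_simp; ring
  have h4 : b M j v' = 0 := by
    rw [hv', b_sub, b_sub, b_smul, b_smul, b_e, b_e, g_self, g_symm M j i, ← hc]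
    simp only [x, y]; field_simp; ring
  have h5 : ∀ k : ℕ, ((σ M i * σ M j) ^ k) v' = v' := by
    intro k
    induction k with
    | zero => simp
    | succ k ih =>
      rw [pow_succ', Module.End.mul_apply, ih, Module.End.mul_apply, σ_apply M j, h4, σ_apply]
      simp [h3]
  have h6 : v = v' + x • e i + y • e j := by rw [hv']; abel
  rw [Module.End.one_apply]
  conv_lhs => rw [h6, map_add, map_add, map_smul, map_smul, h5, hi, hj]
  exact h6.symm

variable {M} {W : Type} [Group W] (cs : CoxeterSystem M W)

/-- the geometric representation -/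
noncomputable def ρ : W →* Module.End ℝ (B → ℝ) := cs.lift ⟨σ M, liftable M⟩

lemma ρ_simple (i : B) : ρ cs (cs.simple i) = σ M i := cs.lift_apply_simple (liftable M) i

lemma ρ_mul (w w' : W) (v : B → ℝ) : ρ cs (w * w') v = ρ cs w (ρ cs w' v) := by
  rw [map_mul, Module.End.mul_apply]

lemma ρ_one (v : B → ℝ) : ρ cs 1 v = v := by rw [map_one, Module.End.one_apply]

lemma ρ_inv (w : W) (v : B → ℝ) : ρ cs w⁻¹ (ρ cs w v) = v := by
  rw [← ρ_mul, inv_mul_cancel, ρ_one]

lemma ρ_inv' (w : W) (v : B → ℝ) : ρ cs w (ρ cs w⁻¹ v) = v := by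
  rw [← ρ_mul, mul_inv_cancel, ρ_one]

lemma bf_ρ (w : W) (u v : B → ℝ) : bf M (ρ cs w u) (ρ cs w v) = bf M u v := by
  induction w using cs.simple_induction_left with
  | one => rw [ρ_one, ρ_one]
  | mul_simple_left w i ih => rw [ρ_mul, ρ_mul, ρ_simple, bf_σ, ih]

open CoxeterSystem in
lemma alt_e (i j : B) (k : ℕ) : ρ cs (cs.wordProd (alternatingWord i j k)) (e i) =
    U (Real.cos (Real.pi / M i j)) (if Even k then k + 1 else k) • e i +
      U (Real.cos (Real.pi / M i j)) (if Even k then k else k + 1) • e j := by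
  induction k with
  | zero => simp [alternatingWord, U]
  | succ k ih =>
    rw [alternatingWord_succ', wordProd_cons, ρ_mul, ρ_simple, ih]
    by_cases hk : Even k
    · have : ¬ Even (k + 1) := by rw [Nat.even_add_one]; simpa using hk
      simp only [hk, this, if_true, if_false]
      rw [σ_right, U]
    · have : Even (k + 1) := by rw [Nat.even_add_one]; exact hk
      simp only [hk, this, if_true, if_false]
      rw [σ_left, U]

open CoxeterSystem in
theorem pos_of_lt (w : W) (i : B) (h : cs.length w < cs.length (w * cs.simple i)) :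
    0 ≤ ρ cs w (e i) := by
  induction hn : cs.length w using Nat.strong_induction_on generalizing w i with
  | _ n ih =>
  by_cases hw : w = 1
  · subst hw; rw [ρ_one]; intro j; simp only [e, Pi.single_apply, Pi.zero_apply]; split_ifs <;> norm_num
  obtain ⟨j, hj⟩ := cs.exists_rightDescent_of_ne_one hw
  have hij : i ≠ j := by
    rintro rfl
    unfold IsRightDescent at hj; omega
  have hwi : cs.length (w * cs.simple i) = cs.length w + 1 := by
    rcases cs.length_mul_simple w i with h' | h' <;> omega
  have key : ∀ (l : ℕ) (v : W) (k : ℕ), cs.length v = l → 1 ≤ k →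
      w = v * cs.wordProd (alternatingWord i j k) → cs.length w = l + k → 0 ≤ ρ cs w (e i) := by
    intro l
    induction l using Nat.strong_induction_on with
    | _ l ih2 =>
    intro v k hv hk hw' hl
    obtain ⟨k, rfl⟩ : ∃ k', k = k' + 1 := ⟨k - 1, by omega⟩
    set x : B := if Even k then j else i with hx
    set y : B := if Even (k + 1) then j else i with hy
    by_cases hd : cs.length (v * cs.simple y) < cs.length v
    · refine ih2 (cs.length (v * cs.simple y)) (by omega) (v * cs.simple y) (k + 2) rfl (by omega) ?_ ?_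
      · rw [alternatingWord_succ', wordProd_cons, ← hy, ← mul_assoc,
          cs.simple_mul_simple_cancel_right]
        exact hw'
      · rcases cs.length_mul_simple v y with h' | h' <;> omega
    have hvy : cs.length v < cs.length (v * cs.simple y) := by
      have := cs.length_mul_simple_ne v y; omega
    have hvx : cs.length v < cs.length (v * cs.simple x) := by
      have h1 : w = v * cs.simple x * cs.wordProd (alternatingWord i j k) := by
        rw [hw', alternatingWord_succ', wordProd_cons, ← hx, mul_assoc]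
      have h2 := cs.length_mul_le (v * cs.simple x) (cs.wordProd (alternatingWord i j k))
      have h3 := cs.length_wordProd_le (alternatingWord i j k)
      rw [length_alternatingWord] at h3
      rw [← h1] at h2
      omega
    have hvi : 0 ≤ ρ cs v (e i) ∧ 0 ≤ ρ cs v (e j) := by
      have p1 := ih _ (by omega) v x hvx rfl
      have p2 := ih _ (by omega) v y hvy rfl
      by_cases hk : Even k
      · have : ¬ Even (k + 1) := by rw [Nat.even_add_one]; simpa using hk
        simp only [hx, hy, hk, this, if_true, if_false] at p1 p2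
        exact ⟨p2, p1⟩
      · have : Even (k + 1) := by rw [Nat.even_add_one]; exact hk
        simp only [hx, hy, hk, this, if_true, if_false] at p1 p2
        exact ⟨p1, p2⟩
    have hm : M i j ≠ 0 → k + 2 ≤ M i j := by
      intro h0
      by_contra hc
      apply cs.not_isReduced_alternatingWord j i (m := k + 2) (by rwa [M.symmetric j i])
        (by rw [M.symmetric j i]; omega)
      have h1 : w * cs.simple i = v * cs.wordProd (alternatingWord j i (k + 2)) := by
        rw [alternatingWord_succ j i (k + 1), wordProd_concat, ← mul_assoc, ← hw']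
      have h2 := cs.length_mul_le v (cs.wordProd (alternatingWord j i (k + 2)))
      have h3 := cs.length_wordProd_le (alternatingWord j i (k + 2))
      rw [← h1] at h2
      unfold CoxeterSystem.IsReduced
      rw [length_alternatingWord] at h3 ⊢
      omega
    rw [hw', ρ_mul, alt_e, map_add, map_smul, map_smul]
    have hM := M.off_diagonal i j hij
    refine add_nonneg (smul_nonneg (U_nonneg hM fun h0 => ?_) hvi.1)
      (smul_nonneg (U_nonneg hM fun h0 => ?_) hvi.2)
    · have := hm h0; split_ifs <;> omega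
    · have := hm h0; split_ifs <;> omega
  refine key _ (w * cs.simple j) 1 rfl le_rfl ?_ ?_
  · simp [alternatingWord]
  · unfold IsRightDescent at hj
    rcases cs.length_mul_simple w j with h' | h' <;> omega

theorem neg_of_lt (w : W) (i : B) (h : cs.length (w * cs.simple i) < cs.length w) :
    ρ cs w (e i) ≤ 0 := by
  have := pos_of_lt cs (w * cs.simple i) i (by rwa [cs.simple_mul_simple_cancel_right])
  rw [ρ_mul, ρ_simple, σ_self, map_neg] at this
  exact neg_nonneg.1 this

theorem faithful (w : W) (h : ∀ v, ρ cs w v = v) : w = 1 := by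
  by_contra hw
  obtain ⟨j, hj⟩ := cs.exists_rightDescent_of_ne_one hw
  have := neg_of_lt cs w j hj j
  rw [h] at this
  simp [e] at this
  linarith

end Pool.Agent.H.Cox
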