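import Pool.Agent.H.MP_ddf3f5_co.A

/-! Positive roots, the length of the associated reflection, and parabolic descent. -/

set_option autoImplicit false

namespace Pool.Agent.H.Cox

open Finset Classical

variable {B : Type} [Fintype B] {M : CoxeterMatrix B} {W : Type} [Group W] (cs : CoxeterSystem M W)

/-- roots -/
def Root (β : B → ℝ) : Prop := ∃ w i, β = ρ cs w (e i)

/-- positive roots -/
def PR (β : B → ℝ) : Prop := Root cs β ∧ 0 ≤ β

/-- `t` acts as the reflection in `β` -/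
def Refl (t : W) (β : B → ℝ) : Prop := ∀ v, ρ cs t v = v - (2 * bf M β v) • β

variable {cs}

lemma Root.map {β : B → ℝ} (h : Root cs β) (w : W) : Root cs (ρ cs w β) := by
  obtain ⟨u, i, rfl⟩ := h
  exact ⟨w * u, i, (ρ_mul cs _ _ _).symm⟩

lemma Root.sign {β : B → ℝ} (h : Root cs β) : 0 ≤ β ∨ β ≤ 0 := by
  obtain ⟨u, i, rfl⟩ := h
  rcases cs.length_mul_simple u i with h' | h'
  · exact Or.inl (pos_of_lt cs u i (by omega))
  · exact Or.inr (neg_of_lt cs u i (by omega))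

lemma Root.norm {β : B → ℝ} (h : Root cs β) : bf M β β = 1 := by
  obtain ⟨u, i, rfl⟩ := h
  rw [bf_ρ, bf_e, b_e, g_self]

lemma Root.neg {β : B → ℝ} (h : Root cs β) : Root cs (-β) := by
  obtain ⟨u, i, rfl⟩ := h
  exact ⟨u * cs.simple i, i, by rw [ρ_mul, ρ_simple, σ_self, map_neg]⟩

lemma root_e (i : B) : Root cs (e i) := ⟨1, i, (ρ_one cs _).symm⟩

lemma Root.pr {β : B → ℝ} (h : Root cs β) {j : B} (hj : 0 < β j) : PR cs β := by
  refine ⟨h, h.sign.resolve_right fun h' => ?_⟩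
  have := h' j
  simp only [Pi.zero_apply] at this
  linarith

lemma Refl.conj {t : W} {β : B → ℝ} (h : Refl cs t β) (w : W) :
    Refl cs (w * t * w⁻¹) (ρ cs w β) := by
  intro v
  rw [ρ_mul, ρ_mul, h, map_sub, map_smul, ρ_inv', ← bf_ρ cs w β, ρ_inv']

lemma refl_simple (i : B) : Refl cs (cs.simple i) (e i) := by
  intro v; rw [ρ_simple, σ_apply, bf_e]

lemma Refl.neg {t : W} {β : B → ℝ} (h : Refl cs t β) : Refl cs t (-β) := by
  intro v
  rw [h, ← neg_one_smul ℝ β, bf_smul, smul_smul]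
  congr 2; ring

lemma Refl.unique {t t' : W} {β : B → ℝ} (h : Refl cs t β) (h' : Refl cs t' β) : t = t' := by
  have : t'⁻¹ * t = 1 := faithful cs _ fun v => by rw [ρ_mul, h, ← h', ρ_inv]
  rw [inv_mul_eq_one] at this; exact this.symm

lemma Root.exists_refl {β : B → ℝ} (h : Root cs β) : ∃ t, cs.IsReflection t ∧ Refl cs t β := by
  obtain ⟨u, i, rfl⟩ := h
  exact ⟨_, ⟨u, i, rfl⟩, (refl_simple i).conj u⟩

lemma exists_pr {t : W} (h : cs.IsReflection t) : ∃ β, PR cs β ∧ Refl cs t β := by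
  obtain ⟨u, i, rfl⟩ := h
  have h1 : Root cs (ρ cs u (e i)) := ⟨u, i, rfl⟩
  rcases h1.sign with h2 | h2
  · exact ⟨_, ⟨h1, h2⟩, (refl_simple i).conj u⟩
  · exact ⟨_, ⟨h1.neg, neg_nonneg.2 h2⟩, ((refl_simple i).conj u).neg⟩

lemma PR.eq_of_smul {β γ : B → ℝ} (h : PR cs β) (h' : PR cs γ) {c : ℝ} (hc : β = c • γ) :
    β = γ := by
  have h1 := h.1.norm
  rw [hc, bf_smul, bf_smul', h'.1.norm] at h1
  have h2 : c = 1 ∨ c = -1 := by
    have : (c - 1) * (c + 1) = 0 := by linarith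
    rcases mul_eq_zero.1 this with h | h
    · left; linarith
    · right; linarith
  rcases h2 with rfl | rfl
  · rw [hc, one_smul]
  · exfalso
    have h3 : γ = 0 := by
      have := h.2
      rw [hc, neg_one_smul, neg_nonneg] at this
      exact le_antisymm this h'.2
    have := h'.1.norm
    rw [h3] at this
    simp [bf] at this

lemma Refl.root_unique {t : W} {β γ : B → ℝ} (h : PR cs β) (h' : PR cs γ) (h1 : Refl cs t β)
    (h2 : Refl cs t γ) : β = γ := by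
  have h3 := h1 β
  rw [h2, h.1.norm, sub_right_inj] at h3
  refine h.eq_of_smul h' (c := bf M γ β) ?_
  have : (2 : ℝ) • β = (2 : ℝ) • (bf M γ β • γ) := by rw [smul_smul, h3, mul_one]
  exact smul_right_injective _ two_ne_zero this

variable (cs) in
/-- length of the reflection in a root -/
noncomputable def L (β : B → ℝ) : ℕ :=
  if h : ∃ t, Refl cs t β then cs.length h.choose else 0

lemma Refl.L_eq {t : W} {β : B → ℝ} (h : Refl cs t β) : L cs β = cs.length t := by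
  have h' : ∃ t, Refl cs t β := ⟨t, h⟩
  rw [L, dif_pos h', h'.choose_spec.unique h]

lemma pr_e (i : B) : PR cs (e i) := (root_e i).pr (j := i) (by simp [e])

lemma PR.exists_pos {β : B → ℝ} (h : PR cs β) {i : B} (hi : β ≠ e i) : ∃ j, j ≠ i ∧ 0 < β j := by
  by_contra hc
  push Not at hc
  refine hi (h.eq_of_smul (pr_e i) (c := β i) ?_)
  funext j
  by_cases hj : j = i
  · subst hj; simp [e]
  · have := le_antisymm (hc j hj) (h.2 j)
    simp [e, hj, this]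

lemma σ_ne {i j : B} (hj : j ≠ i) (v : B → ℝ) : σ M i v j = v j := by
  simp [σ_apply, e, hj]

lemma PR.σ {β : B → ℝ} (h : PR cs β) {i : B} (hi : β ≠ e i) : PR cs (σ M i β) := by
  obtain ⟨j, hj, hj'⟩ := h.exists_pos hi
  have := h.1.map (cs.simple i)
  rw [ρ_simple] at this
  exact this.pr (j := j) (by rwa [σ_ne hj])

lemma lt_of_neg (w : W) (i : B) {j : B} (h : ρ cs w (e i) j < 0) :
    cs.length (w * cs.simple i) + 1 = cs.length w := by
  rcases cs.length_mul_simple w i with h' | h'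
  · have := pos_of_lt cs w i (by omega) j
    simp only [Pi.zero_apply] at this
    linarith
  · exact h'

lemma PR.L_σ {β : B → ℝ} (h : PR cs β) {i : B} (hi : β ≠ e i) (hb : 0 < b M i β) :
    L cs (Cox.σ M i β) + 2 = L cs β := by
  obtain ⟨j, hj, hj'⟩ := h.exists_pos hi
  obtain ⟨t, ht, hr⟩ := h.1.exists_refl
  have h1 := hr.conj (cs.simple i)
  rw [ρ_simple, cs.inv_simple] at h1
  rw [h1.L_eq, hr.L_eq]
  have h2 : ρ cs t (e i) j < 0 := by
    rw [hr, bf_symm, bf_e]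
    simp only [e, Pi.sub_apply, Pi.single_apply, hj, if_false, Pi.smul_apply, smul_eq_mul]
    nlinarith [mul_pos hb hj']
  have h3 := lt_of_neg t i h2
  have h4 := lt_of_neg (cs.simple i * t) i (j := j) (by rwa [ρ_mul, ρ_simple, σ_ne hj])
  have h5 : cs.length (cs.simple i * t) = cs.length (t * cs.simple i) := by
    rw [← cs.length_inv, mul_inv_rev, ht.inv, cs.inv_simple]
  omega

variable (cs) in
/-- elements fixing the coordinates outside `J` -/
def InJ (J : Finset B) (w : W) : Prop := ∀ v j, j ∉ J → ρ cs w v j = v j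

lemma InJ.one (J : Finset B) : InJ cs J 1 := fun v j _ => by rw [ρ_one]

lemma InJ.mul {J : Finset B} {w w' : W} (h : InJ cs J w) (h' : InJ cs J w') : InJ cs J (w * w') :=
  fun v j hj => by rw [ρ_mul, h _ j hj, h' _ j hj]

lemma InJ.inv {J : Finset B} {w : W} (h : InJ cs J w) : InJ cs J w⁻¹ :=
  fun v j hj => by rw [← h (ρ cs w⁻¹ v) j hj, ρ_inv']

lemma InJ.simple {J : Finset B} {i : B} (hi : i ∈ J) : InJ cs J (cs.simple i) :=
  fun v j hj => by rw [ρ_simple, σ_ne (by rintro rfl; exact hj hi)]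

lemma PR.exists_desc {β : B → ℝ} (h : PR cs β) : ∃ i, 0 < β i ∧ 0 < b M i β := by
  by_contra hc
  push Not at hc
  have h1 := h.1.norm
  rw [bf_eq] at h1
  have : ∑ i, β i * b M i β ≤ 0 := Finset.sum_nonpos fun i _ => by
    rcases (h.2 i).eq_or_lt with h2 | h2
    · simp only [Pi.zero_apply] at h2; rw [← h2, zero_mul]
    · exact mul_nonpos_of_nonneg_of_nonpos h2.le (hc i h2)
  linarith

lemma PR.orbit {J : Finset B} {β : B → ℝ} (h : PR cs β) (hs : ∀ j, j ∉ J → β j = 0) :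
    ∃ i u, InJ cs J u ∧ β = ρ cs u (e i) := by
  induction hn : L cs β using Nat.strong_induction_on generalizing β with
  | _ n ih =>
  obtain ⟨i, h1, h2⟩ := h.exists_desc
  by_cases hi : β = e i
  · exact ⟨i, 1, InJ.one J, by rw [ρ_one, hi]⟩
  have hiJ : i ∈ J := by
    by_contra hc; rw [hs i hc] at h1; exact lt_irrefl _ h1
  have h3 := h.L_σ hi h2
  obtain ⟨k, u, hu, h4⟩ := ih _ (by omega) (h.σ hi) (fun j hj => by
    rw [σ_ne (by rintro rfl; exact hj hiJ), hs j hj]) rfl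
  refine ⟨k, cs.simple i * u, (InJ.simple hiJ).mul hu, ?_⟩
  rw [ρ_mul, ← h4, ρ_simple, σ_σ]

lemma InJ.le {J : Finset B} {u : W} (hu : InJ cs J u) {β : B → ℝ} (hβ : ∀ i ∈ J, 0 ≤ b M i β) :
    ρ cs u β ≤ β := by
  induction hn : cs.length u using Nat.strong_induction_on generalizing u with
  | _ n ih =>
  by_cases h1 : u = 1
  · rw [h1, ρ_one]
  obtain ⟨i, hi⟩ := cs.exists_rightDescent_of_ne_one h1
  unfold CoxeterSystem.IsRightDescent at hi
  have hiJ : i ∈ J := by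
    by_contra hc
    have := neg_of_lt cs u i hi i
    rw [hu _ i hc] at this
    simp [e] at this
    linarith
  have h2 := ih _ (by omega) (hu.mul (InJ.simple hiJ)) rfl
  have h3 := neg_of_lt cs u i hi
  rw [ρ_mul, ρ_simple, σ_apply, map_sub, map_smul] at h2
  refine le_trans ?_ h2
  have := smul_nonpos_of_nonneg_of_nonpos (mul_nonneg two_pos.le (hβ i hiJ)) h3
  exact (le_sub_self_iff _).2 this

lemma finite_dominant (J : Finset B) :
    {β | PR cs β ∧ (∀ j, j ∉ J → β j = 0) ∧ ∀ i ∈ J, 0 ≤ b M i β}.Finite := by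
  refine Set.Finite.subset (Set.finite_iUnion (f := fun i : B =>
    {β | (∀ i ∈ J, 0 ≤ b M i β) ∧ ∃ u, InJ cs J u ∧ β = ρ cs u (e i)}) fun i => ?_) ?_
  · apply Set.Subsingleton.finite
    have key : ∀ β γ : B → ℝ, (∀ i ∈ J, 0 ≤ b M i β) → (∃ u, InJ cs J u ∧ β = ρ cs u (e i)) →
        (∃ u, InJ cs J u ∧ γ = ρ cs u (e i)) → γ ≤ β := by
      rintro β γ h1 ⟨u, hu, h2⟩ ⟨u', hu', h3⟩
      have := (hu'.mul hu.inv).le h1
      rwa [ρ_mul, h2, ρ_inv, ← h3, ← h2] at this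
    intro β hβ γ hγ
    exact le_antisymm (key γ β hγ.1 hγ.2 hβ.2) (key β γ hβ.1 hβ.2 hγ.2)
  · rintro β ⟨h1, h2, h3⟩
    obtain ⟨i, u, hu, h4⟩ := h1.orbit h2
    exact Set.mem_iUnion.2 ⟨i, h3, u, hu, h4⟩

omit [Fintype B] in
lemma sign_sum0 (J : Finset B) (γ x y : B → ℝ) (hγ : 0 ≤ γ) (hx : ∀ j ∈ J, 0 ≤ x j)
    (hxy : ∀ j ∈ J, SignType.sign (x j) = SignType.sign (y j)) :
    SignType.sign (∑ j ∈ J, γ j * x j) = SignType.sign (∑ j ∈ J, γ j * y j) := by
  have hy : ∀ j ∈ J, 0 ≤ y j := fun j hj => by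
    rw [← sign_nonneg_iff, ← hxy j hj, sign_nonneg_iff]; exact hx j hj
  have h1 : ∀ j ∈ J, 0 ≤ γ j * x j := fun j hj => mul_nonneg (hγ j) (hx j hj)
  have h2 : ∀ j ∈ J, 0 ≤ γ j * y j := fun j hj => mul_nonneg (hγ j) (hy j hj)
  have h3 : ∑ j ∈ J, γ j * x j = 0 ↔ ∑ j ∈ J, γ j * y j = 0 := by
    rw [Finset.sum_eq_zero_iff_of_nonneg h1, Finset.sum_eq_zero_iff_of_nonneg h2]
    refine forall₂_congr fun j hj => ?_
    rw [mul_eq_zero, mul_eq_zero, ← sign_eq_zero_iff (a := x j), hxy j hj, sign_eq_zero_iff]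
  by_cases h4 : ∑ j ∈ J, γ j * x j = 0
  · rw [h4, h3.1 h4]
  · rw [sign_pos (lt_of_le_of_ne (Finset.sum_nonneg h1) (Ne.symm h4)),
      sign_pos (lt_of_le_of_ne (Finset.sum_nonneg h2) (Ne.symm (mt h3.2 h4)))]

omit [Fintype B] in
lemma sign_sum (J : Finset B) (γ x y : B → ℝ) (hγ : 0 ≤ γ ∨ γ ≤ 0)
    (hx : (∀ j ∈ J, 0 ≤ x j) ∨ ∀ j ∈ J, x j ≤ 0)
    (hxy : ∀ j ∈ J, SignType.sign (x j) = SignType.sign (y j)) :
    SignType.sign (∑ j ∈ J, γ j * x j) = SignType.sign (∑ j ∈ J, γ j * y j) := by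
  have hn : ∀ j ∈ J, SignType.sign ((-x) j) = SignType.sign ((-y) j) := fun j hj => by
    simp only [Pi.neg_apply, Left.sign_neg, hxy j hj]
  rcases hγ with hγ | hγ <;> rcases hx with hx | hx
  · exact sign_sum0 J γ x y hγ hx hxy
  · have := sign_sum0 J γ (-x) (-y) hγ (fun j hj => by simpa using hx j hj) hn
    simpa [Left.sign_neg] using this
  · have := sign_sum0 J (-γ) x y (neg_nonneg.2 hγ) hx hxy
    simpa [Left.sign_neg] using this
  · have := sign_sum0 J (-γ) (-x) (-y) (neg_nonneg.2 hγ) (fun j hj => by simpa using hx j hj) hn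
    simpa using this

lemma InJ.sign_eq {J : Finset B} {w : W} (hw : InJ cs J w) {β β' : B → ℝ}
    (hx : (∀ j ∈ J, 0 ≤ b M j β) ∨ ∀ j ∈ J, b M j β ≤ 0)
    (hxy : ∀ j ∈ J, SignType.sign (b M j β) = SignType.sign (b M j β')) {i : B} (hi : i ∈ J) :
    SignType.sign (b M i (ρ cs w β)) = SignType.sign (b M i (ρ cs w β')) := by
  have h1 : ∀ v, b M i (ρ cs w v) = ∑ j ∈ J, ρ cs w⁻¹ (e i) j * b M j v := by
    intro v
    rw [← bf_e, ← bf_ρ cs w⁻¹, ρ_inv, bf_eq]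
    symm
    refine Finset.sum_subset (Finset.subset_univ J) fun j _ hj => ?_
    rw [hw.inv _ j hj]
    have : j ≠ i := by rintro rfl; exact hj hi
    simp [e, this]
  rw [h1, h1]
  exact sign_sum J _ (fun j => b M j β) (fun j => b M j β') ((root_e i).map w⁻¹).sign hx hxy

variable (cs) in
/-- positive roots with prescribed signs on `J` -/
def PP (J : Finset B) (π : B → SignType) : Set (B → ℝ) :=
  {β | PR cs β ∧ ∀ i ∈ J, SignType.sign (b M i β) = π i}

/-- the key shift: dominant roots outside the parabolic subsystem are moved, by one element and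
with a constant drop of length, onto the antidominant roots of a fixed sign pattern -/
lemma shift {J : Finset B} {π : B → SignType} (h0 : ∀ i ∈ J, 0 ≤ π i) (h1 : ∃ i ∈ J, π i = 1)
    {β₀ : B → ℝ} (hβ₀ : β₀ ∈ PP cs J π) (hout : ∃ j, j ∉ J ∧ β₀ j ≠ 0) :
    ∃ (w : W) (k : ℕ) (π' : B → SignType),
      Set.BijOn (ρ cs w) {β | β ∈ PP cs J π ∧ ∃ j, j ∉ J ∧ β j ≠ 0} (PP cs J π') ∧
      ∀ β, β ∈ PP cs J π → (∃ j, j ∉ J ∧ β j ≠ 0) → L cs (ρ cs w β) + (k + 1) = L cs β := by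
  set A := {β | β ∈ PP cs J π ∧ ∃ j, j ∉ J ∧ β j ≠ 0} with hA
  have hdom : ∀ β ∈ PP cs J π, ∀ j ∈ J, 0 ≤ b M j β := fun β hβ j hj => by
    rw [← sign_nonneg_iff, hβ.2 j hj]; exact h0 j hj
  have hpr : ∀ w, InJ cs J w → ∀ β, PR cs β → (∃ j, j ∉ J ∧ β j ≠ 0) →
      PR cs (ρ cs w β) ∧ ∀ i ∈ J, ρ cs w β ≠ e i := by
    rintro w hw β hβ ⟨j, hj, hj'⟩
    refine ⟨(hβ.1.map w).pr (j := j) ?_, fun i hi h => hj' ?_⟩
    · rw [hw _ j hj]; exact lt_of_le_of_ne (hβ.2 j) (Ne.symm hj')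
    · rw [← hw β j hj, h]
      have : j ≠ i := by rintro rfl; exact hj hi
      simp [e, this]
  set P : ℕ → Prop := fun k => ∃ w, InJ cs J w ∧ ∀ β ∈ A, L cs (ρ cs w β) + k = L cs β with hP
  have step : ∀ w k, InJ cs J w → (∀ β ∈ A, L cs (ρ cs w β) + k = L cs β) → ∀ i ∈ J,
      0 < b M i (ρ cs w β₀) → P (k + 2) := by
    intro w k hw hk i hi hb
    refine ⟨cs.simple i * w, (InJ.simple hi).mul hw, fun β hβ => ?_⟩
    obtain ⟨p1, p2⟩ := hpr w hw β hβ.1.1 hβ.2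
    have p3 : 0 < b M i (ρ cs w β) := by
      rw [← sign_eq_one_iff, ← hw.sign_eq (Or.inl (hdom β₀ hβ₀))
        (fun j hj => (hβ₀.2 j hj).trans (hβ.1.2 j hj).symm) hi, sign_eq_one_iff]
      exact hb
    have := p1.L_σ (p2 i hi) p3
    have := hk β hβ
    rw [ρ_mul, ρ_simple]; omega
  have hb : ∀ k, P k → k ≤ L cs β₀ := by
    rintro k ⟨w, -, hk⟩
    have := hk β₀ ⟨hβ₀, hout⟩; omega
  have hP2 : P 2 := by
    obtain ⟨i, hi, hi'⟩ := h1
    refine step 1 0 (InJ.one J) (fun β _ => by rw [ρ_one]; rfl) i hi ?_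
    rw [ρ_one, ← sign_eq_one_iff, hβ₀.2 i hi, hi']
  have h2 := Nat.le_findGreatest (hb 2 hP2) hP2
  obtain ⟨w, hw, hk⟩ := Nat.findGreatest_spec (hb 2 hP2) hP2
  have hmax : ∀ i ∈ J, b M i (ρ cs w β₀) ≤ 0 := by
    intro i hi
    by_contra hc
    have := step w _ hw hk i hi (not_le.1 hc)
    have := Nat.le_findGreatest (hb _ this) this
    omega
  refine ⟨w, Nat.findGreatest P (L cs β₀) - 1, fun i => SignType.sign (b M i (ρ cs w β₀)),
    ⟨fun β hβ => ⟨(hpr w hw β hβ.1.1 hβ.2).1, fun i hi => ?_⟩, fun β _ γ _ h => ?_, fun δ hδ => ?_⟩,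
    fun β h h' => ?_⟩
  · exact (hw.sign_eq (Or.inl (hdom β₀ hβ₀))
      (fun j hj => (hβ₀.2 j hj).trans (hβ.1.2 j hj).symm) hi).symm
  · rw [← ρ_inv cs w β, h, ρ_inv]
  · have p1 : ∃ j, j ∉ J ∧ δ j ≠ 0 := by
      obtain ⟨j, q1, q2⟩ := hδ.1.exists_desc
      refine ⟨j, fun hj => ?_, q1.ne'⟩
      have q3 : SignType.sign (b M j δ) = SignType.sign (b M j (ρ cs w β₀)) := hδ.2 j hj
      have q4 := hmax j hj
      rw [← sign_nonpos_iff, ← q3, sign_nonpos_iff] at q4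
      linarith
    refine ⟨ρ cs w⁻¹ δ, ⟨⟨(hpr _ hw.inv δ hδ.1 p1).1, fun i hi => ?_⟩, ?_⟩, ρ_inv' cs w δ⟩
    · rw [← hw.inv.sign_eq (Or.inr hmax) (fun j hj => (hδ.2 j hj).symm) hi, ρ_inv, hβ₀.2 i hi]
    · obtain ⟨j, q1, q2⟩ := p1
      exact ⟨j, q1, by rwa [hw.inv _ j q1]⟩
  · have := hk β ⟨h, h'⟩
    omega

end Pool.Agent.H.Cox
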